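import Pool.Agent.Lib.MP_5349a4_pr.M.Defs2
import Pool.Agent.Lib.MP_5349a4_pr.M.Base

/-!
# Convolution toolkit for the diagrams (helper81): measurability, masses, one step of the
longest leg decomposition, monotone limits
-/

set_option autoImplicit false
open MeasureTheory Set
open scoped ENNReal NNReal

namespace Pool.Agent.Lib.MP_5349a4_pr.H81

open Pool.Agent.Lib.MP_5349a4_pr

variable {d : ℕ}

theorem measurable_conv {f g : Eu d → ℝ≥0∞} (hf : Measurable f) (hg : Measurable g) :
    Measurable (conv f g) := by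
  unfold conv
  refine Measurable.lintegral_prod_right' (f := fun q : Eu d × Eu d => f q.2 * g (q.1 - q.2)) ?_
  exact (hf.comp measurable_snd).mul (hg.comp (measurable_fst.sub measurable_snd))

theorem lintegral_conv {f g : Eu d → ℝ≥0∞} (hf : Measurable f) (hg : Measurable g) :
    ∫⁻ z, conv f g z = (∫⁻ u, f u) * ∫⁻ u, g u := by
  unfold conv
  rw [lintegral_lintegral_swap
    ((hf.comp measurable_snd).mul (hg.comp (measurable_fst.sub measurable_snd))).aemeasurable]
  calc ∫⁻ u, ∫⁻ z, f u * g (z - u) = ∫⁻ u, f u * ∫⁻ z, g z := by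
        refine lintegral_congr fun u => ?_
        have hm : Measurable fun z => g (z - u) := hg.comp (measurable_id.sub_const u)
        rw [lintegral_const_mul _ hm]
        congr 1
        exact lintegral_sub_right_eq_self (μ := volume) g u
    _ = (∫⁻ u, f u) * ∫⁻ u, g u := by rw [lintegral_mul_const _ hf]

theorem conv_mono {f f' g g' : Eu d → ℝ≥0∞} (hf : ∀ u, f u ≤ f' u) (hg : ∀ u, g u ≤ g' u)
    (z : Eu d) : conv f g z ≤ conv f' g' z :=
  lintegral_mono fun u => mul_le_mul' (hf u) (hg _)

theorem conv_const (t : ℝ≥0∞) {g : Eu d → ℝ≥0∞} (hg : Measurable g) (z : Eu d) :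
    ∫⁻ u, t * g (z - u) = t * ∫⁻ u, g u := by
  have hm : Measurable fun u => g (z - u) := hg.comp (measurable_const.sub measurable_id)
  rw [lintegral_const_mul _ hm]
  congr 1
  exact lintegral_sub_left_eq_self (μ := volume) g z

theorem measurable_cpow {f : Eu d → ℝ≥0∞} (hf : Measurable f) (n : ℕ) : Measurable (cpow f n) := by
  induction n with
  | zero => exact hf
  | succ n ih => exact measurable_conv hf ih

theorem lintegral_cpow {f : Eu d → ℝ≥0∞} (hf : Measurable f) (n : ℕ) :
    ∫⁻ z, cpow f n z = (∫⁻ u, f u) ^ (n + 1) := by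
  induction n with
  | zero => simp [cpow]
  | succ n ih =>
    show ∫⁻ z, conv f (cpow f n) z = _
    rw [lintegral_conv hf (measurable_cpow hf n), ih]
    ring

/-- One step of the decomposition: `y ≤ x ≤ y + t`. -/
theorem cpow_step {x y : Eu d → ℝ≥0∞} (hx : Measurable x) (hy : Measurable y) (t : ℝ≥0∞)
    (hyx : ∀ z, y z ≤ x z) (hxy : ∀ z, x z ≤ y z + t) (n : ℕ) (z : Eu d) :
    cpow x n z ≤ cpow y n z + (n + 1) * t * (∫⁻ u, x u) ^ n := by
  induction n generalizing z with
  | zero => simpa [cpow] using hxy z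
  | succ n ih =>
    set X := ∫⁻ u, x u with hX
    have hYX : ∫⁻ u, y u ≤ X := lintegral_mono hyx
    have hcx := measurable_cpow hx n
    have hcy := measurable_cpow hy n
    calc cpow x (n + 1) z = ∫⁻ u, x u * cpow x n (z - u) := rfl
      _ ≤ ∫⁻ u, (y u * cpow x n (z - u) + t * cpow x n (z - u)) := by
          refine lintegral_mono fun u => ?_
          rw [← add_mul]
          exact mul_le_mul' (hxy u) le_rfl
      _ = (∫⁻ u, y u * cpow x n (z - u)) + ∫⁻ u, t * cpow x n (z - u) := by
          rw [lintegral_add_left]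
          exact hy.mul (hcx.comp (measurable_const.sub measurable_id))
      _ ≤ (∫⁻ u, (y u * cpow y n (z - u) + y u * ((n + 1) * t * X ^ n))) + t * X ^ (n + 1) := by
          refine add_le_add (lintegral_mono fun u => ?_) ?_
          · rw [← mul_add]
            exact mul_le_mul' le_rfl (ih _)
          · rw [conv_const t hcx, lintegral_cpow hx]
      _ = cpow y (n + 1) z + (∫⁻ u, y u) * ((n + 1) * t * X ^ n) + t * X ^ (n + 1) := by
          rw [lintegral_add_left, lintegral_mul_const _ hy]
          · rfl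
          · exact hy.mul (hcy.comp (measurable_const.sub measurable_id))
      _ ≤ cpow y (n + 1) z + X * ((n + 1) * t * X ^ n) + t * X ^ (n + 1) := by
          gcongr
      _ = cpow y (n + 1) z + ((n + 1 : ℕ) + 1) * t * X ^ (n + 1) := by
          push_cast
          ring

theorem g_step {x y w : Eu d → ℝ≥0∞} (hx : Measurable x) (hy : Measurable y) (hw : Measurable w)
    (hw1 : ∀ u, w u ≤ 1) (t : ℝ≥0∞)
    (hyx : ∀ z, y z ≤ x z) (hxy : ∀ z, x z ≤ y z + t) (n : ℕ) :
    ∫⁻ u, w u * (x u * cpow x n u) ≤ (∫⁻ u, w u * (y u * cpow y n u)) +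
      (n + 2) * t * (∫⁻ u, x u) ^ (n + 1) := by
  set X := ∫⁻ u, x u with hX
  have hYX : ∫⁻ u, y u ≤ X := lintegral_mono hyx
  have hcx := measurable_cpow hx n
  have hcy := measurable_cpow hy n
  calc ∫⁻ u, w u * (x u * cpow x n u)
      ≤ ∫⁻ u, (w u * (y u * cpow y n u) + y u * ((n + 1) * t * X ^ n) + t * cpow x n u) := by
        refine lintegral_mono fun u => ?_
        calc w u * (x u * cpow x n u) ≤ w u * ((y u + t) * cpow x n u) := by
              gcongr; exact hxy u
          _ = w u * (y u * cpow x n u) + w u * (t * cpow x n u) := by ring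
          _ ≤ w u * (y u * (cpow y n u + (n + 1) * t * X ^ n)) + 1 * (t * cpow x n u) := by
              gcongr
              · exact cpow_step hx hy t hyx hxy n u
              · exact hw1 u
          _ = w u * (y u * cpow y n u) + w u * (y u * ((n + 1) * t * X ^ n)) + t * cpow x n u := by
              ring
          _ ≤ w u * (y u * cpow y n u) + 1 * (y u * ((n + 1) * t * X ^ n)) + t * cpow x n u := by
              gcongr
              exact hw1 u
          _ = _ := by rw [one_mul]
    _ = (∫⁻ u, w u * (y u * cpow y n u)) + (∫⁻ u, y u) * ((n + 1) * t * X ^ n) +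
          t * X ^ (n + 1) := by
        rw [lintegral_add_left, lintegral_add_left, lintegral_mul_const _ hy,
          lintegral_const_mul _ hcx, lintegral_cpow hx]
        · exact hw.mul (hy.mul hcy)
        · exact (hw.mul (hy.mul hcy)).add (hy.mul_const _)
    _ ≤ (∫⁻ u, w u * (y u * cpow y n u)) + X * ((n + 1) * t * X ^ n) + t * X ^ (n + 1) := by
        gcongr
    _ = _ := by ring

theorem i_step {x y : Eu d → ℝ≥0∞} (hx : Measurable x) (hy : Measurable y) (t : ℝ≥0∞)
    (hyx : ∀ z, y z ≤ x z) (hxy : ∀ z, x z ≤ y z + t) (n : ℕ) (B : Set (Eu d)) :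
    ∫⁻ z in B, cpow x n z ≤ (∫⁻ z in B, cpow y n z) +
      volume B * ((n + 1) * t * (∫⁻ u, x u) ^ n) := by
  calc ∫⁻ z in B, cpow x n z ≤ ∫⁻ z in B, (cpow y n z + (n + 1) * t * (∫⁻ u, x u) ^ n) :=
        lintegral_mono fun z => cpow_step hx hy t hyx hxy n z
    _ = _ := by
        rw [lintegral_add_left (measurable_cpow hy n), setLIntegral_const, mul_comm (volume B)]

theorem iSup_mul_iSup_le {a b : ℕ → ℝ≥0∞} (ha : Monotone a) (hb : Monotone b) :
    (⨆ l, a l) * (⨆ l, b l) ≤ ⨆ l, a l * b l := by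
  rw [ENNReal.iSup_mul]
  refine iSup_le fun i => ?_
  rw [ENNReal.mul_iSup]
  refine iSup_le fun j => ?_
  calc a i * b j ≤ a (max i j) * b (max i j) :=
        mul_le_mul' (ha (le_max_left _ _)) (hb (le_max_right _ _))
    _ ≤ _ := le_iSup (fun l => a l * b l) (max i j)

theorem cpow_mono {x y : Eu d → ℝ≥0∞} (h : ∀ z, x z ≤ y z) (n : ℕ) (z : Eu d) :
    cpow x n z ≤ cpow y n z := by
  induction n generalizing z with
  | zero => exact h z
  | succ n ih => exact conv_mono h ih z

/-- monotone limits -/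
theorem cpow_iSup {T : Eu d → ℝ≥0∞} {x : ℕ → Eu d → ℝ≥0∞} (hx : ∀ l, Measurable (x l))
    (hmono : ∀ z, Monotone fun l => x l z) (hT : ∀ z, T z ≤ ⨆ l, x l z) (n : ℕ) (z : Eu d) :
    cpow T n z ≤ ⨆ l, cpow (x l) n z := by
  induction n generalizing z with
  | zero => exact hT z
  | succ n ih =>
    have hm : ∀ z, Monotone fun l => cpow (x l) n z := fun z l l' h =>
      cpow_mono (fun u => hmono u h) n z
    calc cpow T (n + 1) z = ∫⁻ u, T u * cpow T n (z - u) := rfl
      _ ≤ ∫⁻ u, ⨆ l, x l u * cpow (x l) n (z - u) := by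
          refine lintegral_mono fun u => ?_
          exact (mul_le_mul' (hT u) (ih _)).trans (iSup_mul_iSup_le (hmono u) (hm _))
      _ = ⨆ l, ∫⁻ u, x l u * cpow (x l) n (z - u) := by
          rw [lintegral_iSup]
          · exact fun l => (hx l).mul
              ((measurable_cpow (hx l) n).comp (measurable_const.sub measurable_id))
          · intro l l' h u
            exact mul_le_mul' (hmono u h) (hm _ h)
      _ = _ := rfl

theorem g_iSup {T w : Eu d → ℝ≥0∞} {x : ℕ → Eu d → ℝ≥0∞} (hx : ∀ l, Measurable (x l))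
    (hw : Measurable w)
    (hmono : ∀ z, Monotone fun l => x l z) (hT : ∀ z, T z ≤ ⨆ l, x l z) (n : ℕ) :
    ∫⁻ u, w u * (T u * cpow T n u) ≤ ⨆ l, ∫⁻ u, w u * (x l u * cpow (x l) n u) := by
  have hm : ∀ z, Monotone fun l => cpow (x l) n z := fun z l l' h =>
      cpow_mono (fun u => hmono u h) n z
  calc ∫⁻ u, w u * (T u * cpow T n u) ≤ ∫⁻ u, ⨆ l, w u * (x l u * cpow (x l) n u) := by
        refine lintegral_mono fun u => ?_
        rw [← ENNReal.mul_iSup]
        exact mul_le_mul' le_rfl ((mul_le_mul' (hT u) (cpow_iSup hx hmono hT n u)).trans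
          (iSup_mul_iSup_le (hmono u) (hm u)))
    _ = _ := by
        rw [lintegral_iSup]
        · exact fun l => hw.mul ((hx l).mul (measurable_cpow (hx l) n))
        · intro l l' h u
          exact mul_le_mul' le_rfl (mul_le_mul' (hmono u h) (hm u h))

theorem i_iSup {T : Eu d → ℝ≥0∞} {x : ℕ → Eu d → ℝ≥0∞} (hx : ∀ l, Measurable (x l))
    (hmono : ∀ z, Monotone fun l => x l z) (hT : ∀ z, T z ≤ ⨆ l, x l z) (n : ℕ) (B : Set (Eu d)) :
    ∫⁻ z in B, cpow T n z ≤ ⨆ l, ∫⁻ z in B, cpow (x l) n z := by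
  have hm : ∀ z, Monotone fun l => cpow (x l) n z := fun z l l' h =>
      cpow_mono (fun u => hmono u h) n z
  calc ∫⁻ z in B, cpow T n z ≤ ∫⁻ z in B, ⨆ l, cpow (x l) n z :=
        lintegral_mono fun z => cpow_iSup hx hmono hT n z
    _ = _ := by
        rw [lintegral_iSup]
        · exact fun l => measurable_cpow (hx l) n
        · intro l l' h u
          exact hm u h

end Pool.Agent.Lib.MP_5349a4_pr.H81
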