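import Pool.Agent.Lib.MP_5349a4_pr.M.Iface2
import Pool.Agent.Lib.MP_5349a4_pr.M.Base
import Pool.Agent.Lib.MP_5349a4_pr.M.H81.Conv

/-!
# Module FAR (5.7): the far part of the diagrams (helper81)
-/

set_option autoImplicit false
open MeasureTheory Set Filter
open scoped ENNReal NNReal Topology

namespace Pool.Agent.Lib.MP_5349a4_pr.H81

open Pool.Agent.Lib.MP_5349a4_pr

/-- for large `d`: `2^10 Γ^5 ≤ 2^d` -/
theorem exists_large : ∃ d0 : ℕ, 40 ≤ d0 ∧ ∀ d ≥ d0, (2 : ℝ≥0) ^ 10 * Gam d ^ 5 ≤ 2 ^ d := by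
  have h := tendsto_pow_const_div_const_pow_of_one_lt 5 (show (1 : ℝ) < 2 by norm_num)
  have h2 : ∀ᶠ n : ℕ in atTop, (n : ℝ) ^ 5 / 2 ^ n < 1 / (2 ^ 10 * 12800 ^ 5) :=
    h.eventually (gt_mem_nhds (by norm_num))
  obtain ⟨N, hN⟩ := eventually_atTop.1 h2
  refine ⟨max N 40, le_max_right _ _, fun d hd => ?_⟩
  have h3 := hN d ((le_max_left _ _).trans hd)
  rw [div_lt_div_iff₀ (by positivity) (by norm_num)] at h3
  rw [← NNReal.coe_le_coe]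
  push_cast [Gam]
  have h4 : (2 : ℝ) ^ 10 * (12800 * (d : ℝ)) ^ 5 = (d : ℝ) ^ 5 * (2 ^ 10 * 12800 ^ 5) := by ring
  rw [h4]
  linarith

section
variable {d : ℕ}

theorem one_le_Gam (hd : 1 ≤ d) : (1 : ℝ≥0∞) ≤ Gam d := by
  have : (1 : ℝ≥0) ≤ Gam d := by
    unfold Gam
    have hd' : (1 : ℝ≥0) ≤ d := by exact_mod_cast hd
    calc (1 : ℝ≥0) ≤ 12800 * 1 := by norm_num
      _ ≤ 12800 * d := by gcongr
  exact_mod_cast this

/-- bound for `tI` at distance `≥ 2^l` -/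
noncomputable def tl (d l : ℕ) : ℝ≥0∞ := 2 ^ d * (Gam d : ℝ≥0∞) ^ (l + 12) / 2 ^ (l * (d - 1))

/-- the summands -/
noncomputable def ql (d l : ℕ) : ℝ≥0∞ := 2 ^ d * (Gam d : ℝ≥0∞) ^ (4 * l + 42) / 2 ^ (l * (d - 1))

theorem tl_mul (d l : ℕ) : tl d l * ((Gam d : ℝ≥0∞) ^ (l + 10)) ^ 3 = ql d l := by
  unfold tl ql
  rw [ENNReal.div_eq_inv_mul, ENNReal.div_eq_inv_mul]
  ring

theorem ql_half (hd : 1 ≤ d) (hΓ : (2 : ℝ≥0∞) ^ 10 * (Gam d : ℝ≥0∞) ^ 5 ≤ 2 ^ d) (l : ℕ) :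
    2 * ql d (l + 1) ≤ ql d l := by
  have hG := one_le_Gam hd
  have h1 : 2 * (Gam d : ℝ≥0∞) ^ 4 ≤ 2 ^ (d - 1) := by
    have e : (2 : ℝ≥0∞) ^ d = 2 ^ (d - 1) * 2 := by
      rw [← pow_succ]; congr 1; omega
    have h2 : (2 * (Gam d : ℝ≥0∞) ^ 4) * 2 ≤ 2 ^ (d - 1) * 2 := by
      rw [← e]
      refine le_trans ?_ hΓ
      calc (2 * (Gam d : ℝ≥0∞) ^ 4) * 2 = (2 * 2) * ((Gam d : ℝ≥0∞) ^ 4 * 1) := by ring
        _ ≤ (2 ^ 10) * ((Gam d : ℝ≥0∞) ^ 4 * Gam d) := by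
            gcongr
            norm_num
        _ = _ := by ring
    exact (ENNReal.mul_le_mul_iff_left (by norm_num) (by norm_num)).1 h2
  unfold ql
  have e2 : (2 : ℝ≥0∞) ^ ((l + 1) * (d - 1)) = 2 ^ (l * (d - 1)) * 2 ^ (d - 1) := by
    rw [← pow_add]; congr 1; ring
  rw [e2, ← mul_div_assoc]
  calc 2 * (2 ^ d * (Gam d : ℝ≥0∞) ^ (4 * (l + 1) + 42)) / (2 ^ (l * (d - 1)) * 2 ^ (d - 1))
      = (2 ^ d * (Gam d : ℝ≥0∞) ^ (4 * l + 42)) * (2 * (Gam d : ℝ≥0∞) ^ 4) /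
        (2 ^ (l * (d - 1)) * 2 ^ (d - 1)) := by
        congr 1; ring
    _ ≤ (2 ^ d * (Gam d : ℝ≥0∞) ^ (4 * l + 42)) * 2 ^ (d - 1) /
        (2 ^ (l * (d - 1)) * 2 ^ (d - 1)) := by gcongr
    _ = _ := by
        rw [ENNReal.mul_div_mul_right _ _ (by positivity)
          (ENNReal.pow_ne_top (by norm_num))]

/-- truncated `tI` -/
noncomputable def Xl (lam : ℝ≥0) (l : ℕ) (z : Eu d) : ℝ≥0∞ := tI lam z * ind (‖z‖ < 2 ^ l)

theorem Xl_meas {lam : ℝ≥0} (hm : Measurable (tI lam : Eu d → ℝ≥0∞)) (l : ℕ) :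
    Measurable (Xl lam l : Eu d → ℝ≥0∞) :=
  hm.mul (measurable_ind (measurableSet_lt measurable_norm measurable_const))

theorem Xl_mono (lam : ℝ≥0) (z : Eu d) : Monotone fun l => Xl lam l z := by
  intro l l' h
  refine mul_le_mul' le_rfl (ind_mono fun h1 => ?_)
  exact lt_of_lt_of_le h1 (pow_le_pow_right₀ (by norm_num) h)

theorem le_iSup_Xl (lam : ℝ≥0) (i : ℕ) (z : Eu d) : tI lam z ≤ ⨆ l, Xl lam (i + l) z := by
  obtain ⟨l, hl⟩ := pow_unbounded_of_one_lt ‖z‖ (show (1 : ℝ) < 2 by norm_num)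
  refine le_trans ?_ (le_iSup (fun l => Xl lam (i + l) z) l)
  have : ‖z‖ < 2 ^ (i + l) := lt_of_lt_of_le hl (pow_le_pow_right₀ (by norm_num) (by omega))
  unfold Xl
  rw [ind_of this, mul_one]

theorem Xl_step {lam : ℝ≥0} {l : ℕ}
    (ht : ∀ z : Eu d, 2 ^ l ≤ ‖z‖ → tI lam z ≤ tl d l) (z : Eu d) :
    Xl lam (l + 1) z ≤ Xl lam l z + tl d l := by
  unfold Xl
  by_cases h : ‖z‖ < 2 ^ l
  · rw [ind_of h, mul_one]
    refine le_trans ?_ le_self_add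
    calc tI lam z * ind (‖z‖ < 2 ^ (l + 1)) ≤ tI lam z * 1 := mul_le_mul' le_rfl (ind_le_one _)
      _ = _ := mul_one _
  · push Not at h
    refine le_trans ?_ le_add_self
    calc tI lam z * ind (‖z‖ < 2 ^ (l + 1)) ≤ tI lam z * 1 := mul_le_mul' le_rfl (ind_le_one _)
      _ = tI lam z := mul_one _
      _ ≤ _ := ht z h

/-- the hypotheses of the abstract argument -/
structure FarHyp (d : ℕ) (lam : ℝ≥0) : Prop where
  meas : Measurable (tI lam : Eu d → ℝ≥0∞)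
  far : ∀ l : ℕ, 1 ≤ l → ∀ z : Eu d, 2 ^ l ≤ ‖z‖ → tI lam z ≤ tl d l
  mass : ∀ l : ℕ, (lam : ℝ≥0∞) * ∫⁻ z : Eu d, Xl lam l z ≤ (Gam d : ℝ≥0∞) ^ (l + 9)
  big : (2 : ℝ≥0∞) ^ 10 * (Gam d : ℝ≥0∞) ^ 5 ≤ 2 ^ d
  pos : 1 ≤ d
  lamv : (lam : ℝ≥0∞) * volume (bal (0 : Eu d) 1) ≤ 2

theorem pow_le_cube {v : ℝ≥0∞} (hv : 1 ≤ v) {n : ℕ} (hn : n ≤ 3) : v ^ n ≤ v ^ 3 :=
  pow_le_pow_right₀ hv hn

/-- far part, `n = 1, 2` -/
theorem far_g {lam : ℝ≥0} (h : FarHyp d lam) (i : ℕ) (hi : 1 ≤ i) (n : ℕ) (hn : n + 1 ≤ 3) :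
    (lam : ℝ≥0∞) ^ (n + 1) * ∫⁻ u : Eu d, ind (2 ^ i ≤ ‖u‖) * (tI lam u * cpow (tI lam) n u)
      ≤ 2 * (n + 2) * ql d i := by
  have hG := one_le_Gam h.pos
  have hw : Measurable fun u : Eu d => ind ((2 : ℝ) ^ i ≤ ‖u‖) :=
    measurable_ind (measurableSet_le measurable_const measurable_norm)
  have hxm : ∀ l, Measurable (Xl lam (i + l) : Eu d → ℝ≥0∞) := fun l => Xl_meas h.meas _
  have hmono : ∀ z : Eu d, Monotone fun l => Xl lam (i + l) z := fun z l l' hl =>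
    Xl_mono lam z (by omega)
  have h1 := g_iSup hxm hw hmono (le_iSup_Xl lam i) n
  set J : ℕ → ℝ≥0∞ := fun l =>
    ∫⁻ u : Eu d, ind (2 ^ i ≤ ‖u‖) * (Xl lam (i + l) u * cpow (Xl lam (i + l)) n u) with hJ
  have hJ0 : J 0 = 0 := by
    rw [hJ]
    show ∫⁻ u : Eu d, ind (2 ^ i ≤ ‖u‖) * (Xl lam i u * cpow (Xl lam i) n u) = 0
    have : ∀ u : Eu d, ind ((2 : ℝ) ^ i ≤ ‖u‖) * (Xl lam i u * cpow (Xl lam i) n u) = 0 := by
      intro u
      by_cases hu : (2 : ℝ) ^ i ≤ ‖u‖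
      · have : Xl lam i u = 0 := by
          unfold Xl
          rw [ind_not (not_lt.2 hu), mul_zero]
        rw [this, zero_mul, mul_zero]
      · rw [ind_not hu, zero_mul]
    simp [this]
  have hstep : ∀ l, (lam : ℝ≥0∞) ^ (n + 1) * J (l + 1) ≤
      (lam : ℝ≥0∞) ^ (n + 1) * J l + (n + 2) * ql d (i + l) := by
    intro l
    have h2 := g_step (x := Xl lam (i + l + 1)) (y := Xl lam (i + l)) (Xl_meas h.meas _)
      (Xl_meas h.meas _) hw (fun u => ind_le_one _) (tl d (i + l))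
      (fun z => Xl_mono lam z (by omega)) (fun z => Xl_step (h.far _ (by omega)) z) n
    have h3 : (lam : ℝ≥0∞) ^ (n + 1) * ((n + 2) * tl d (i + l) *
        (∫⁻ u : Eu d, Xl lam (i + l + 1) u) ^ (n + 1)) ≤ (n + 2) * ql d (i + l) := by
      calc (lam : ℝ≥0∞) ^ (n + 1) * ((n + 2) * tl d (i + l) *
        (∫⁻ u : Eu d, Xl lam (i + l + 1) u) ^ (n + 1))
          = (n + 2) * (tl d (i + l) * (lam * ∫⁻ u : Eu d, Xl lam (i + l + 1) u) ^ (n + 1)) := by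
            rw [mul_pow]; ring
        _ ≤ (n + 2) * (tl d (i + l) * ((Gam d : ℝ≥0∞) ^ (i + l + 10)) ^ 3) := by
            refine mul_le_mul' le_rfl (mul_le_mul' le_rfl ?_)
            calc (lam * ∫⁻ u : Eu d, Xl lam (i + l + 1) u) ^ (n + 1)
                ≤ ((Gam d : ℝ≥0∞) ^ (i + l + 10)) ^ (n + 1) :=
                  pow_le_pow_left₀ zero_le (h.mass (i + l + 1)) (n + 1)
              _ ≤ _ := pow_le_cube (one_le_pow₀ hG) hn
        _ = _ := by rw [tl_mul]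
    calc (lam : ℝ≥0∞) ^ (n + 1) * J (l + 1) ≤ (lam : ℝ≥0∞) ^ (n + 1) * (J l +
          (n + 2) * tl d (i + l) * (∫⁻ u : Eu d, Xl lam (i + l + 1) u) ^ (n + 1)) := by
            gcongr
            exact h2
      _ = (lam : ℝ≥0∞) ^ (n + 1) * J l + (lam : ℝ≥0∞) ^ (n + 1) * ((n + 2) * tl d (i + l) *
          (∫⁻ u : Eu d, Xl lam (i + l + 1) u) ^ (n + 1)) := by rw [mul_add]
      _ ≤ _ := by gcongr
  have hind : ∀ l, (lam : ℝ≥0∞) ^ (n + 1) * J l + 2 * (n + 2) * ql d (i + l) ≤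
      2 * (n + 2) * ql d i := by
    intro l
    induction l with
    | zero => rw [hJ0, mul_zero, zero_add, add_zero]
    | succ l ih =>
      refine le_trans ?_ ih
      calc (lam : ℝ≥0∞) ^ (n + 1) * J (l + 1) + 2 * (n + 2) * ql d (i + (l + 1))
          ≤ ((lam : ℝ≥0∞) ^ (n + 1) * J l + (n + 2) * ql d (i + l)) +
            (n + 2) * (2 * ql d (i + l + 1)) := by
            refine add_le_add (hstep l) (le_of_eq ?_)
            rw [show i + (l + 1) = i + l + 1 from rfl]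
            ring
        _ ≤ ((lam : ℝ≥0∞) ^ (n + 1) * J l + (n + 2) * ql d (i + l)) +
            (n + 2) * ql d (i + l) := by
            gcongr
            exact ql_half h.pos h.big _
        _ = _ := by ring
  calc (lam : ℝ≥0∞) ^ (n + 1) * ∫⁻ u : Eu d, ind (2 ^ i ≤ ‖u‖) * (tI lam u * cpow (tI lam) n u)
      ≤ (lam : ℝ≥0∞) ^ (n + 1) * ⨆ l, J l := mul_le_mul' le_rfl h1
    _ = ⨆ l, (lam : ℝ≥0∞) ^ (n + 1) * J l := by rw [ENNReal.mul_iSup]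
    _ ≤ _ := iSup_le fun l => le_self_add.trans (hind l)

theorem vol16 {lam : ℝ≥0} (h : (lam : ℝ≥0∞) * volume (bal (0 : Eu d) 1) ≤ 2) :
    (lam : ℝ≥0∞) * volume (bal (0 : Eu d) 16) ≤ 2 * 16 ^ d := by
  have : volume (bal (0 : Eu d) 16) = 16 ^ d * volume (bal (0 : Eu d) 1) := by
    unfold bal
    rw [Measure.addHaar_closedBall' volume (0 : Eu d) (by norm_num : (0 : ℝ) ≤ 16)]
    congr 1
    rw [finrank_euclideanSpace_fin, ENNReal.ofReal_pow (by norm_num)]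
    norm_num
  rw [this]
  calc (lam : ℝ≥0∞) * (16 ^ d * volume (bal (0 : Eu d) 1))
      = 16 ^ d * (lam * volume (bal (0 : Eu d) 1)) := by ring
    _ ≤ 16 ^ d * 2 := by gcongr
    _ = _ := mul_comm _ _

/-- the integrals of `cpow` over `B_16` -/
theorem far_i {lam : ℝ≥0} (h : FarHyp d lam) (n : ℕ) (hn : n ≤ 3) :
    (lam : ℝ≥0∞) ^ (n + 1) * ∫⁻ z in bal (0 : Eu d) 16, cpow (tI lam) n z
      ≤ 2 * (Gam d : ℝ≥0∞) ^ 61 := by
  have hG := one_le_Gam h.pos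
  set B : Set (Eu d) := bal (0 : Eu d) 16 with hB
  have hxm : ∀ l, Measurable (Xl lam (6 + l) : Eu d → ℝ≥0∞) := fun l => Xl_meas h.meas _
  have hmono : ∀ z : Eu d, Monotone fun l => Xl lam (6 + l) z := fun z l l' hl =>
    Xl_mono lam z (by omega)
  have h1 := i_iSup hxm hmono (le_iSup_Xl lam 6) n B
  set J : ℕ → ℝ≥0∞ := fun l => ∫⁻ z in B, cpow (Xl lam (6 + l)) n z with hJ
  have hJ0 : (lam : ℝ≥0∞) ^ (n + 1) * J 0 ≤ (Gam d : ℝ≥0∞) ^ 60 := by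
    calc (lam : ℝ≥0∞) ^ (n + 1) * J 0
        ≤ (lam : ℝ≥0∞) ^ (n + 1) * ∫⁻ z, cpow (Xl lam 6) n z := by
          gcongr
          exact setLIntegral_le_lintegral _ _
      _ = (lam * ∫⁻ z : Eu d, Xl lam 6 z) ^ (n + 1) := by
          rw [lintegral_cpow (Xl_meas h.meas 6), mul_pow]
      _ ≤ ((Gam d : ℝ≥0∞) ^ 15) ^ (n + 1) := by
          gcongr
          exact h.mass 6
      _ ≤ ((Gam d : ℝ≥0∞) ^ 15) ^ 4 := pow_le_pow_right₀ (one_le_pow₀ hG) (by omega)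
      _ = _ := by rw [← pow_mul]
  have hstep : ∀ l, (lam : ℝ≥0∞) ^ (n + 1) * J (l + 1) ≤
      (lam : ℝ≥0∞) ^ (n + 1) * J l + 8 * 16 ^ d * ql d (6 + l) := by
    intro l
    have h2 := i_step (x := Xl lam (6 + l + 1)) (y := Xl lam (6 + l)) (Xl_meas h.meas _)
      (Xl_meas h.meas _) (tl d (6 + l))
      (fun z => Xl_mono lam z (by omega)) (fun z => Xl_step (h.far _ (by omega)) z) n B
    have h3 : (lam : ℝ≥0∞) ^ (n + 1) * (volume B * ((n + 1) * tl d (6 + l) *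
        (∫⁻ u : Eu d, Xl lam (6 + l + 1) u) ^ n)) ≤ 8 * 16 ^ d * ql d (6 + l) := by
      calc (lam : ℝ≥0∞) ^ (n + 1) * (volume B * ((n + 1) * tl d (6 + l) *
        (∫⁻ u : Eu d, Xl lam (6 + l + 1) u) ^ n))
          = (lam * volume B) * ((n + 1) * (tl d (6 + l) *
            (lam * ∫⁻ u : Eu d, Xl lam (6 + l + 1) u) ^ n)) := by
            rw [mul_pow]; ring
        _ ≤ (2 * 16 ^ d) * (4 * (tl d (6 + l) * ((Gam d : ℝ≥0∞) ^ (6 + l + 10)) ^ 3)) := by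
            refine mul_le_mul' (vol16 h.lamv) (mul_le_mul' ?_ (mul_le_mul' le_rfl ?_))
            · have : ((n : ℝ≥0∞) + 1) = ((n + 1 : ℕ) : ℝ≥0∞) := by push_cast; rfl
              rw [this]
              exact_mod_cast (by omega : n + 1 ≤ 4)
            · calc (lam * ∫⁻ u : Eu d, Xl lam (6 + l + 1) u) ^ n
                  ≤ ((Gam d : ℝ≥0∞) ^ (6 + l + 10)) ^ n :=
                    pow_le_pow_left₀ zero_le (h.mass (6 + l + 1)) n
                _ ≤ _ := pow_le_cube (one_le_pow₀ hG) hn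
        _ = _ := by rw [tl_mul]; ring
    calc (lam : ℝ≥0∞) ^ (n + 1) * J (l + 1) ≤ (lam : ℝ≥0∞) ^ (n + 1) * (J l +
          volume B * ((n + 1) * tl d (6 + l) * (∫⁻ u : Eu d, Xl lam (6 + l + 1) u) ^ n)) := by
            gcongr
            exact h2
      _ = (lam : ℝ≥0∞) ^ (n + 1) * J l + (lam : ℝ≥0∞) ^ (n + 1) * (volume B *
            ((n + 1) * tl d (6 + l) * (∫⁻ u : Eu d, Xl lam (6 + l + 1) u) ^ n)) := by rw [mul_add]
      _ ≤ _ := by gcongr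
  have hind : ∀ l, (lam : ℝ≥0∞) ^ (n + 1) * J l + 16 * 16 ^ d * ql d (6 + l) ≤
      (Gam d : ℝ≥0∞) ^ 60 + 16 * 16 ^ d * ql d 6 := by
    intro l
    induction l with
    | zero => rw [add_zero]; gcongr
    | succ l ih =>
      refine le_trans ?_ ih
      calc (lam : ℝ≥0∞) ^ (n + 1) * J (l + 1) + 16 * 16 ^ d * ql d (6 + (l + 1))
          ≤ ((lam : ℝ≥0∞) ^ (n + 1) * J l + 8 * 16 ^ d * ql d (6 + l)) +
            8 * 16 ^ d * (2 * ql d (6 + l + 1)) := by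
            refine add_le_add (hstep l) (le_of_eq ?_)
            rw [show 6 + (l + 1) = 6 + l + 1 from rfl]
            ring
        _ ≤ ((lam : ℝ≥0∞) ^ (n + 1) * J l + 8 * 16 ^ d * ql d (6 + l)) +
            8 * 16 ^ d * ql d (6 + l) := by
            gcongr
            exact ql_half h.pos h.big _
        _ = _ := by ring
  have hq6 : 16 * 16 ^ d * ql d 6 ≤ (Gam d : ℝ≥0∞) ^ 61 := by
    unfold ql
    rw [← mul_div_assoc]
    apply ENNReal.div_le_of_le_mul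
    have e1 : (2 : ℝ≥0∞) ^ (6 * (d - 1)) * 2 ^ 6 = 2 ^ (6 * d) := by
      rw [← pow_add]; congr 1; have := h.pos; omega
    have h64 : (2 : ℝ≥0∞) ^ 6 ≠ 0 := by positivity
    have h64' : (2 : ℝ≥0∞) ^ 6 ≠ ∞ := ENNReal.pow_ne_top (by norm_num)
    refine (ENNReal.mul_le_mul_iff_left h64 h64').1 ?_
    rw [mul_assoc ((Gam d : ℝ≥0∞) ^ 61), e1]
    calc 16 * 16 ^ d * (2 ^ d * (Gam d : ℝ≥0∞) ^ (4 * 6 + 42)) * 2 ^ 6
        = (2 : ℝ≥0∞) ^ (5 * d) * (Gam d : ℝ≥0∞) ^ 61 * (2 ^ 10 * (Gam d : ℝ≥0∞) ^ 5) := by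
          have e2 : (16 : ℝ≥0∞) = 2 ^ 4 := by norm_num
          rw [e2, ← pow_mul]
          have e3 : 5 * d = 4 * d + d := by ring
          rw [e3, pow_add]
          ring
      _ ≤ (2 : ℝ≥0∞) ^ (5 * d) * (Gam d : ℝ≥0∞) ^ 61 * 2 ^ d := by
          gcongr
          exact h.big
      _ = _ := by
          have e3 : 6 * d = 5 * d + d := by ring
          rw [e3, pow_add]; ring
  calc (lam : ℝ≥0∞) ^ (n + 1) * ∫⁻ z in B, cpow (tI lam) n z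
      ≤ (lam : ℝ≥0∞) ^ (n + 1) * ⨆ l, J l := mul_le_mul' le_rfl h1
    _ = ⨆ l, (lam : ℝ≥0∞) ^ (n + 1) * J l := by rw [ENNReal.mul_iSup]
    _ ≤ (Gam d : ℝ≥0∞) ^ 60 + 16 * 16 ^ d * ql d 6 :=
        iSup_le fun l => le_self_add.trans (hind l)
    _ ≤ (Gam d : ℝ≥0∞) ^ 61 + (Gam d : ℝ≥0∞) ^ 61 :=
        add_le_add (pow_le_pow_right₀ hG (by norm_num)) hq6
    _ = _ := (two_mul _).symm

end

/-- Module FAR. -/
theorem far (hT : TInfStatement) (hV : VstStatement) (hP : PtwStatement) (hS : SlbStatement) :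
    FarStatement := by
  obtain ⟨d0, hd40, hbig⟩ := exists_large
  refine ⟨d0, fun d hd T lam H => ?_⟩
  have hd1 : 1 ≤ d := by omega
  obtain ⟨T1, T2, -, -, -, -, T7⟩ := hT d hd1 T lam
  have hF : FarHyp d lam := by
    refine ⟨T1, ?_, ?_, by exact_mod_cast hbig d hd, hd1, ?_⟩
    · intro l hl z hz
      unfold tI
      refine iSup_le fun n => ?_
      unfold tl
      have h2 : (2 : ℝ≥0∞) ^ (l * (d - 1)) ≠ 0 := by positivity
      have h3 : (2 : ℝ≥0∞) ^ (l * (d - 1)) ≠ ∞ := ENNReal.pow_ne_top (by norm_num)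
      rw [ENNReal.le_div_iff_mul_le (Or.inl h2) (Or.inl h3)]
      exact hP d (by omega) T lam H l (bal 0 n) 0 z (dom_bal _ _) hl (by simpa using hz)
    · intro l
      have h1 := T7 (2 ^ l) ((Gam d : ℝ≥0∞) ^ (l + 9))
        (fun V hVd => hV d (by omega) T lam H l V 0 0 hVd)
      refine le_trans (mul_le_mul' le_rfl ?_) h1
      have hmeas : MeasurableSet (bal (0 : Eu d) (2 ^ l)) := (dom_bal _ _).1
      rw [← lintegral_mul_ind hmeas]
      refine lintegral_mono fun z => ?_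
      unfold Xl
      rw [mul_comm]
      refine mul_le_mul' (ind_mono fun h => ?_) le_rfl
      show dist z 0 ≤ 2 ^ l
      rw [dist_zero_right]; exact h.le
    · obtain ⟨-, -, S3, -, -, -⟩ := hS d hd1 T
      rw [← S3 lam]
      refine (H 0 le_rfl).trans ?_
      have hg : gd d ≤ 1 := by
        unfold gd
        have hd' : (1 : ℝ≥0) ≤ d := by exact_mod_cast hd1
        rw [one_div]
        apply inv_le_one_of_one_le₀
        calc (1 : ℝ≥0) ≤ 6400 * 1 := by norm_num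
          _ ≤ 6400 * d := by gcongr
      calc (1 : ℝ≥0∞) + gd d ≤ 1 + (1 : ℝ≥0) := by gcongr
        _ = 2 := by norm_num
  refine ⟨fun i hi => ?_, fun j hj => far_i hF j hj⟩
  have h1 := far_g hF i hi 1 (by norm_num)
  have h2 := far_g hF i hi 2 (by norm_num)
  have hK : Kt d lam (2 ^ i) ≤ 20 * ql d i := by
    unfold Kt tri box
    calc 2 * ((lam : ℝ≥0∞) ^ 2 * ∫⁻ u : Eu d, ind (2 ^ i ≤ ‖u‖) *
          (tI lam u * conv (tI lam) (tI lam) u)) +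
        (lam : ℝ≥0∞) ^ 3 * ∫⁻ u : Eu d, ind (2 ^ i ≤ ‖u‖) *
          (tI lam u * conv (tI lam) (conv (tI lam) (tI lam)) u)
        ≤ 2 * (2 * ((1 : ℕ) + 2) * ql d i) + 2 * ((2 : ℕ) + 2) * ql d i :=
          add_le_add (mul_le_mul' le_rfl h1) h2
      _ = 20 * ql d i := by
          push_cast
          ring
  calc Kt d lam (2 ^ i) * 2 ^ (i * (d - 1)) ≤ (20 * ql d i) * 2 ^ (i * (d - 1)) := by gcongr
    _ = 20 * 2 ^ d * (Gam d : ℝ≥0∞) ^ (4 * i + 42) := by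
        unfold ql
        have h2 : (2 : ℝ≥0∞) ^ (i * (d - 1)) ≠ 0 := by positivity
        have h3 : (2 : ℝ≥0∞) ^ (i * (d - 1)) ≠ ∞ := ENNReal.pow_ne_top (by norm_num)
        rw [mul_assoc, ENNReal.div_mul_cancel h2 h3]
        ring

end Pool.Agent.Lib.MP_5349a4_pr.H81
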