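import Pool.Agent.Lib.MP_5349a4_pr.M.Iface2
import Pool.Agent.Lib.MP_5349a4_pr.M.Base

/-!
# Module VST (5.5): uniform bound for the number of cluster points in a ball (helper81)
-/

set_option autoImplicit false
open MeasureTheory Set
open scoped ENNReal NNReal

namespace Pool.Agent.Lib.MP_5349a4_pr.H81

open Pool.Agent.Lib.MP_5349a4_pr

variable {d : ℕ}

/-- monotonicity of `wt` in the weight -/
theorem wt_mono_f (lam : ℝ≥0) (V : Set (Eu d)) {f g : Eu d → ℝ≥0∞} (h : ∀ b, f b ≤ g b)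
    (x : Eu d) : wt lam V f x ≤ wt lam V g x := by
  unfold wt
  gcongr with y
  · exact h x
  · exact h y

theorem wt_le (T : TauFacts d) (lam : ℝ≥0) {V : Set (Eu d)} (hV : Dom V) {f : Eu d → ℝ≥0∞}
    (h : ∀ b, f b ≤ 1) (x : Eu d) : wt lam V f x ≤ 1 + lam * volume V := by
  unfold wt
  gcongr
  · exact h x
  · calc ∫⁻ y in V, tau lam V x y * f y ≤ ∫⁻ _ in V, 1 := by
          refine lintegral_mono fun y => ?_
          calc tau lam V x y * f y ≤ 1 * 1 := mul_le_mul' (T.le_one lam V x y hV) (h y)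
            _ = 1 := one_mul _
      _ = volume V := by rw [setLIntegral_one]

theorem dist_ge_of_exit {x y y0 : Eu d} {s : ℝ} (hy : s < ‖y‖) :
    s - dist x y0 < dist (x + y) y0 := by
  have h1 : ‖y‖ ≤ dist (x + y) y0 + dist x y0 := by
    calc ‖y‖ = ‖(x + y - y0) - (x - y0)‖ := by congr 1; abel
      _ ≤ ‖x + y - y0‖ + ‖x - y0‖ := norm_sub_le _ _
      _ = dist (x + y) y0 + dist x y0 := by rw [dist_eq_norm, dist_eq_norm]
  linarith

theorem dist_ge_of_exit' {x y y0 : Eu d} {s : ℝ} (hy : ‖y‖ ≤ s) :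
    dist x y0 - s ≤ dist (x + y) y0 := by
  have h1 : dist x y0 ≤ dist (x + y) y0 + ‖y‖ := by
    calc dist x y0 = ‖(x + y - y0) - y‖ := by rw [dist_eq_norm]; congr 1; abel
      _ ≤ ‖x + y - y0‖ + ‖y‖ := norm_sub_le _ _
      _ = dist (x + y) y0 + ‖y‖ := by rw [dist_eq_norm]
  linarith

/-- the main estimate (5.5), in a ball around `y0` -/
theorem vst_main (hS : SlbStatement) (hR : RadStatement) (hd : 29 ≤ d) (T : TauFacts d)
    (lam : ℝ≥0) (H : Hyp d lam) (y0 : Eu d) (n ρ : ℝ) (hρ : 12 ≤ ρ) (x0 : Eu d)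
    (hx0 : x0 ∈ bal y0 n) :
    wt lam (bal y0 n) (fun b => ind (b ∈ bal y0 (ρ / 2))) x0 ≤ 2 * vol d lam (6 * ρ) := by
  obtain ⟨S1, S2, -, -, S5, S6⟩ := hS d (by omega) T
  set V : Set (Eu d) := bal y0 n with hVdef
  have hV : Dom V := dom_bal y0 n
  set f : Eu d → ℝ≥0∞ := fun b => ind (b ∈ bal y0 (ρ / 2)) with hfdef
  have hfm : Measurable f := measurable_ind (dom_bal y0 (ρ / 2)).1
  have hf1 : ∀ b, f b ≤ 1 := fun b => ind_le_one _
  set Φ : Eu d → ℝ≥0∞ := wt lam V f with hΦ
  have hB : ∀ x, Φ x ≤ 1 + lam * volume V := fun x => wt_le T lam hV hf1 x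
  have hBtop : 1 + (lam : ℝ≥0∞) * volume V ≠ ∞ := by
    have : volume V ≠ ∞ := hV.2.measure_lt_top.ne
    exact ENNReal.add_ne_top.2 ⟨ENNReal.one_ne_top, ENNReal.mul_ne_top ENNReal.coe_ne_top this⟩
  set M : ℝ≥0∞ := ⨆ x : V, Φ x with hM
  have hMΦ : ∀ x ∈ V, Φ x ≤ M := fun x hx => le_iSup (fun x : V => Φ x) ⟨x, hx⟩
  have hMtop : M ≠ ∞ := by
    apply ne_top_of_le_ne_top hBtop
    exact iSup_le fun x => hB x
  have hρ0 : 0 < ρ := by linarith
  set c : ℝ≥0∞ := ⨆ x : {x : Eu d | x ∈ V ∧ ρ ≤ dist x y0}, ENNReal.ofReal (dist x.1 y0) * Φ x with hc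
  have hcΦ : ∀ x ∈ V, ρ ≤ dist x y0 → ENNReal.ofReal (dist x y0) * Φ x ≤ c := fun x hx h =>
    le_iSup (fun x : {x : Eu d | x ∈ V ∧ ρ ≤ dist x y0} => ENNReal.ofReal (dist x.1 y0) * Φ x)
      ⟨x, hx, h⟩
  have hctop : c ≠ ∞ := by
    apply ne_top_of_le_ne_top (ENNReal.mul_ne_top (ENNReal.ofReal_ne_top (r := n)) hBtop)
    refine iSup_le fun x => ?_
    exact mul_le_mul' (ENNReal.ofReal_le_ofReal x.2.1) (hB _)
  set K : ℝ≥0∞ := max (M * ENNReal.ofReal ρ) c with hK
  -- pointwise bound away from the centre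
  have hpt : ∀ z ∈ V, 0 < dist z y0 → Φ z ≤ K * ENNReal.ofReal (1 / dist z y0) := by
    intro z hz hz0
    have h1 : ENNReal.ofReal (dist z y0) * ENNReal.ofReal (1 / dist z y0) = 1 := by
      rw [← ENNReal.ofReal_mul hz0.le, mul_one_div_cancel hz0.ne', ENNReal.ofReal_one]
    have h2 : ENNReal.ofReal (dist z y0) * Φ z ≤ K := by
      by_cases hzρ : ρ ≤ dist z y0
      · exact (hcΦ z hz hzρ).trans (le_max_right _ _)
      · push Not at hzρ
        calc ENNReal.ofReal (dist z y0) * Φ z ≤ ENNReal.ofReal ρ * M :=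
              mul_le_mul' (ENNReal.ofReal_le_ofReal hzρ.le) (hMΦ z hz)
          _ = M * ENNReal.ofReal ρ := mul_comm _ _
          _ ≤ K := le_max_left _ _
    calc Φ z = (ENNReal.ofReal (dist z y0) * ENNReal.ofReal (1 / dist z y0)) * Φ z := by
          rw [h1, one_mul]
      _ = (ENNReal.ofReal (dist z y0) * Φ z) * ENNReal.ofReal (1 / dist z y0) := by ring
      _ ≤ K * ENNReal.ofReal (1 / dist z y0) := mul_le_mul' h2 le_rfl
  -- step (i)
  have hstep : ∀ x ∈ V, ρ ≤ dist x y0 →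
      ENNReal.ofReal (dist x y0) * Φ x ≤ K * ENNReal.ofReal (127 / 128) := by
    intro x hx hxρ
    have hx0 : 0 < dist x y0 := by linarith
    set s : ℝ := dist x y0 / 4 with hs
    have hs0 : 0 ≤ s := by positivity
    have h1 := S1 lam V f x s hV hfm hs0
    have h2 : wt lam (V ∩ bal x s) f x = 0 := by
      have hf0 : ∀ b ∈ bal x s, f b = 0 := by
        intro b hb
        apply ind_not
        intro hb2
        have e1 : dist b x ≤ s := hb
        have e2 : dist b y0 ≤ ρ / 2 := hb2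
        have e3 : dist x y0 ≤ dist x b + dist b y0 := dist_triangle _ _ _
        rw [dist_comm x b] at e3
        rw [hs] at e1
        linarith
      unfold wt
      rw [hf0 x (Metric.mem_closedBall_self hs0), zero_add]
      have : ∫⁻ y in V ∩ bal x s, tau lam (V ∩ bal x s) x y * f y = 0 := by
        rw [setLIntegral_congr_fun (g := fun _ => 0) (hV.inter (dom_bal x s)).1
          (fun y hy => by rw [hf0 y hy.2, mul_zero])]
        simp
      rw [this, mul_zero]
    rw [h2, zero_add] at h1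
    have h3 : ∫⁻ y, ex lam s y * (ind (x + y ∈ V) * Φ (x + y)) ≤
        ∫⁻ y, K * (ex lam s y * ENNReal.ofReal (1 / ‖x - y0 + y‖)) := by
      refine lintegral_mono fun y => ?_
      by_cases hex : ex lam s y = 0
      · simp [hex]
      · obtain ⟨-, hy2⟩ := (S2 lam s hs0).2.2 y hex
        have hd1 : dist x y0 - (s + 1) ≤ dist (x + y) y0 := dist_ge_of_exit' hy2
        have hd2 : 0 < dist (x + y) y0 := by rw [hs] at hd1; linarith
        have e1 : ‖x - y0 + y‖ = dist (x + y) y0 := by rw [dist_eq_norm]; congr 1; abel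
        rw [e1]
        by_cases hxy : x + y ∈ V
        · rw [ind_of hxy, one_mul]
          calc ex lam s y * Φ (x + y) ≤ ex lam s y * (K * ENNReal.ofReal (1 / dist (x + y) y0)) :=
                mul_le_mul' le_rfl (hpt _ hxy hd2)
            _ = K * (ex lam s y * ENNReal.ofReal (1 / dist (x + y) y0)) := by ring
        · rw [ind_not hxy, zero_mul, mul_zero]; exact zero_le
    have hKm : ∫⁻ y, K * (ex lam s y * ENNReal.ofReal (1 / ‖x - y0 + y‖)) =
        K * ∫⁻ y, ex lam s y * ENNReal.ofReal (1 / ‖x - y0 + y‖) := by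
      rw [lintegral_const_mul]
      refine (S2 lam s hs0).1.mul ?_
      exact ENNReal.measurable_ofReal.comp (by fun_prop)
    have hrad := hR d hd T lam H (x - y0) (by rw [← dist_eq_norm]; linarith)
    rw [← dist_eq_norm] at hrad
    have h4 : Φ x ≤ K * ENNReal.ofReal ((1 - 1 / 128) / dist x y0) := by
      refine h1.trans (h3.trans ?_)
      rw [hKm]
      exact mul_le_mul' le_rfl hrad
    calc ENNReal.ofReal (dist x y0) * Φ x
        ≤ ENNReal.ofReal (dist x y0) * (K * ENNReal.ofReal ((1 - 1 / 128) / dist x y0)) :=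
          mul_le_mul' le_rfl h4
      _ = K * (ENNReal.ofReal (dist x y0) * ENNReal.ofReal ((1 - 1 / 128) / dist x y0)) := by ring
      _ = K * ENNReal.ofReal (127 / 128) := by
          rw [← ENNReal.ofReal_mul hx0.le]
          congr 2
          field_simp
          norm_num
  have hcK : c ≤ K * ENNReal.ofReal (127 / 128) := iSup_le fun x => hstep x.1 x.2.1 x.2.2
  have hcM : c ≤ M * ENNReal.ofReal ρ := by
    by_contra hcon
    push Not at hcon
    have hKc : K = c := max_eq_right hcon.le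
    rw [hKc] at hcK
    have hc0 : c ≠ 0 := (lt_of_le_of_lt zero_le hcon).ne'
    have h1 : c * ENNReal.ofReal (127 / 128) < c * 1 := by
      apply ENNReal.mul_lt_mul_right hc0 hctop
      rw [← ENNReal.ofReal_one]
      exact (ENNReal.ofReal_lt_ofReal_iff (by norm_num)).2 (by norm_num)
    rw [mul_one] at h1
    exact absurd hcK (not_le.2 h1)
  -- step (ii)
  have hfar : ∀ z ∈ V, 3 * ρ ≤ dist z y0 → Φ z ≤ M / 3 := by
    intro z hz hzρ
    have h1 : ENNReal.ofReal (3 * ρ) * Φ z ≤ M * ENNReal.ofReal ρ :=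
      (mul_le_mul' (ENNReal.ofReal_le_ofReal hzρ) le_rfl).trans ((hcΦ z hz (by linarith)).trans hcM)
    have h2 : ENNReal.ofReal (3 * ρ) = 3 * ENNReal.ofReal ρ := by
      rw [ENNReal.ofReal_mul (by norm_num)]; norm_num
    rw [h2] at h1
    have h3 : (3 * Φ z) * ENNReal.ofReal ρ ≤ M * ENNReal.ofReal ρ := by
      calc (3 * Φ z) * ENNReal.ofReal ρ = 3 * ENNReal.ofReal ρ * Φ z := by ring
        _ ≤ _ := h1
    have hρe : ENNReal.ofReal ρ ≠ 0 := by
      rw [Ne, ENNReal.ofReal_eq_zero]; linarith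
    have h4 : 3 * Φ z ≤ M := (ENNReal.mul_le_mul_iff_left hρe ENNReal.ofReal_ne_top).1 h3
    rw [ENNReal.le_div_iff_mul_le (Or.inl (by norm_num)) (Or.inl (by norm_num)), mul_comm]
    exact h4
  have hphi : ∀ s : ℝ, 0 ≤ s → phi d lam s ≤ 3 / 2 := by
    intro s hs
    refine (H s hs).trans ?_
    have hg : (gd d : ℝ≥0∞) ≤ 1 / 2 := by
      have : gd d ≤ 1 / 2 := by
        unfold gd
        have hd' : (1 : ℝ≥0) ≤ d := by exact_mod_cast (by omega : 1 ≤ d)
        rw [one_div, one_div]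
        apply inv_anti₀ (by norm_num)
        calc (2 : ℝ≥0) ≤ 6400 * 1 := by norm_num
          _ ≤ 6400 * d := by gcongr
      calc (gd d : ℝ≥0∞) ≤ ((1 / 2 : ℝ≥0) : ℝ≥0∞) := by exact_mod_cast this
        _ = 1 / 2 := by rw [ENNReal.coe_div (by norm_num)]; norm_num
    calc (1 : ℝ≥0∞) + gd d ≤ 1 + 1 / 2 := by gcongr
      _ = 3 / 2 := by
        rw [ENNReal.eq_div_iff (by norm_num) (by norm_num), mul_add, mul_one, one_div,
          ENNReal.mul_inv_cancel (by norm_num) (by norm_num)]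
        norm_num
  have hM2 : ∀ x ∈ V, Φ x ≤ vol d lam (6 * ρ) + M / 2 := by
    intro x hx
    by_cases hxρ : 3 * ρ ≤ dist x y0
    · refine (hfar x hx hxρ).trans (le_trans ?_ le_add_self)
      exact ENNReal.div_le_div_left (by norm_num) _
    · push Not at hxρ
      have h1 := S1 lam V f x (6 * ρ) hV hfm (by linarith)
      refine h1.trans (add_le_add ?_ ?_)
      · calc wt lam (V ∩ bal x (6 * ρ)) f x ≤ wt lam (bal x (6 * ρ)) f x :=
              S6 lam f x _ _ (hV.inter (dom_bal _ _)) (dom_bal _ _) inter_subset_right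
          _ ≤ wt lam (bal x (6 * ρ)) (fun _ => 1) x := wt_mono_f lam _ hf1 x
          _ = vol d lam (6 * ρ) := S5 lam x _ (by linarith)
      · calc ∫⁻ y, ex lam (6 * ρ) y * (ind (x + y ∈ V) * wt lam V f (x + y))
            ≤ ∫⁻ y, ex lam (6 * ρ) y * (M / 3) := by
              refine lintegral_mono fun y => ?_
              by_cases hex : ex lam (6 * ρ) y = 0
              · simp [hex]
              · obtain ⟨hy1, -⟩ := (S2 lam (6 * ρ) (by linarith)).2.2 y hex
                have hd1 : 6 * ρ - dist x y0 < dist (x + y) y0 := dist_ge_of_exit hy1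
                refine mul_le_mul' le_rfl ?_
                by_cases hxy : x + y ∈ V
                · rw [ind_of hxy, one_mul]
                  exact hfar _ hxy (by linarith)
                · rw [ind_not hxy, zero_mul]; exact zero_le
          _ = phi d lam (6 * ρ) * (M / 3) := by
              rw [lintegral_mul_const _ (S2 lam (6 * ρ) (by linarith)).1]
              rfl
          _ ≤ 3 / 2 * (M / 3) := mul_le_mul' (hphi _ (by linarith)) le_rfl
          _ = M / 2 := by
              rw [div_eq_mul_inv, div_eq_mul_inv, div_eq_mul_inv]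
              calc 3 * 2⁻¹ * (M * 3⁻¹) = (3 * 3⁻¹) * (M * 2⁻¹) := by ring
                _ = M * 2⁻¹ := by
                  rw [ENNReal.mul_inv_cancel (by norm_num) (by norm_num), one_mul]
  have hMfin : M ≤ vol d lam (6 * ρ) + M / 2 := iSup_le fun x => hM2 x.1 x.2
  have hfinal : M ≤ 2 * vol d lam (6 * ρ) := by
    have hM2top : M / 2 ≠ ∞ := ENNReal.div_ne_top hMtop (by norm_num)
    have h1 : M / 2 + M / 2 ≤ vol d lam (6 * ρ) + M / 2 := by rw [ENNReal.add_halves]; exact hMfin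
    have h2 : M / 2 ≤ vol d lam (6 * ρ) := (ENNReal.add_le_add_iff_right hM2top).1 h1
    calc M = M / 2 + M / 2 := (ENNReal.add_halves M).symm
      _ ≤ vol d lam (6 * ρ) + vol d lam (6 * ρ) := add_le_add h2 h2
      _ = 2 * vol d lam (6 * ρ) := (two_mul _).symm
  exact (hMΦ x0 hx0).trans hfinal

/-- Module VST. -/
theorem vst (hS : SlbStatement) (hR : RadStatement) (hV : VolStatement) : VstStatement := by
  intro d hd T lam H i V x y hVd
  obtain ⟨-, -, -, -, -, S6⟩ := hS d (by omega) T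
  -- enlarge the domain
  obtain ⟨n, hn⟩ := (hVd.2.union (Bornology.isBounded_singleton (x := x))).subset_closedBall y
  have hVn : V ⊆ bal y n := subset_union_left.trans hn
  have hxn : x ∈ bal y n := hn (Or.inr rfl)
  have h1 : wt lam V (fun b => ind (b ∈ bal y (2 ^ i))) x ≤
      wt lam (bal y n) (fun b => ind (b ∈ bal y (2 ^ i))) x :=
    S6 lam _ x V _ hVd (dom_bal _ _) hVn
  have h2i : (1 : ℝ) ≤ 2 ^ i := one_le_pow₀ (by norm_num)
  have h2 : wt lam (bal y n) (fun b => ind (b ∈ bal y (2 ^ i))) x ≤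
      wt lam (bal y n) (fun b => ind (b ∈ bal y ((16 * 2 ^ i) / 2))) x := by
    apply wt_mono_f
    intro b
    apply ind_mono
    intro hb
    exact Metric.closedBall_subset_closedBall (by linarith) hb
  have h3 := vst_main hS hR hd T lam H y n (16 * 2 ^ i) (by linarith) x hxn
  have h4 : vol d lam (6 * (16 * 2 ^ i)) ≤ vol d lam (2 ^ (i + 7)) := by
    apply S6 lam _ 0 _ _ (dom_bal _ _) (dom_bal _ _)
    apply Metric.closedBall_subset_closedBall
    rw [pow_add]
    nlinarith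
  have h5 := (hV d (by omega) T lam H).2 (i + 7)
  have hG : (2 : ℝ≥0∞) ≤ Gam d := by
    have : (2 : ℝ≥0) ≤ Gam d := by
      unfold Gam
      have hd' : (1 : ℝ≥0) ≤ d := by exact_mod_cast (by omega : 1 ≤ d)
      calc (2 : ℝ≥0) ≤ 12800 * 1 := by norm_num
        _ ≤ 12800 * d := by gcongr
    exact_mod_cast this
  calc wt lam V (fun b => ind (b ∈ bal y (2 ^ i))) x ≤ _ := h1
    _ ≤ _ := h2
    _ ≤ 2 * vol d lam (6 * (16 * 2 ^ i)) := h3
    _ ≤ 2 * vol d lam (2 ^ (i + 7)) := mul_le_mul' le_rfl h4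
    _ ≤ Gam d * (Gam d : ℝ≥0∞) ^ (i + 7 + 1) := mul_le_mul' hG h5
    _ = (Gam d : ℝ≥0∞) ^ (i + 9) := by rw [← pow_succ']

end Pool.Agent.Lib.MP_5349a4_pr.H81
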